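import Pool.Agent.Helper12.RQ.Goals

/-! Minimisers are monotone along the rays. -/

set_option autoImplicit false

open MeasureTheory Set Filter Topology Metric

open scoped ENNReal NNReal ContDiff RealInnerProductSpace

namespace Pool.Agent.Helper11.RQ

open Pool.Agent.Helper12.RQ

variable {n : ℕ}

theorem meas_enp (p : ℝ) (w : E n → ℝ) : Measurable (fun x => ‖fderiv ℝ w x‖ₑ ^ p) :=
  ((measurable_fderiv ℝ w).enorm).pow_const p

theorem en_scale (p : ℝ) (hp : 0 ≤ p) (w : E n → ℝ) (s : ℝ) (hs : 0 < s) :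
    en p (fun y => w (s • y)) = ENNReal.ofReal (s ^ (p - n)) * en p w := by
  unfold en
  have h1 : ∀ x : E n, ‖fderiv ℝ (fun y => w (s • y)) x‖ₑ ^ p =
      ENNReal.ofReal (s ^ p) * ‖fderiv ℝ w (s • x)‖ₑ ^ p := by
    intro x
    have : fderiv ℝ (fun y => w (s • y)) x = s • fderiv ℝ w (s • x) := fderiv_comp_smul s
    rw [this, enorm_smul, ENNReal.mul_rpow_of_nonneg _ _ hp,
      Real.enorm_eq_ofReal hs.le, ENNReal.ofReal_rpow_of_pos hs]
  simp_rw [h1]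
  have hm : Measurable (fun x : E n => ‖fderiv ℝ w (s • x)‖ₑ ^ p) :=
    (meas_enp p w).comp (measurable_const_smul s)
  rw [lintegral_const_mul _ hm]
  have h2 : ∫⁻ x : E n, ‖fderiv ℝ w (s • x)‖ₑ ^ p =
      ENNReal.ofReal ((s ^ n)⁻¹) * ∫⁻ x : E n, ‖fderiv ℝ w x‖ₑ ^ p := by
    have h3 : ∫⁻ x : E n, ‖fderiv ℝ w x‖ₑ ^ p ∂(Measure.map (s • ·) (volume : Measure (E n))) =
        ∫⁻ x : E n, ‖fderiv ℝ w (s • x)‖ₑ ^ p :=
      lintegral_map (meas_enp p w) (measurable_const_smul s)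
    rw [← h3, Measure.map_addHaar_smul _ hs.ne', lintegral_smul_measure]
    have : abs ((s ^ Module.finrank ℝ (E n))⁻¹) = (s ^ n)⁻¹ := by
      rw [finrank_euclideanSpace_fin, abs_of_pos (by positivity)]
    rw [this, smul_eq_mul]
  rw [h2, ← mul_assoc, ← ENNReal.ofReal_mul (by positivity)]
  congr 2
  rw [Real.rpow_sub hs, Real.rpow_natCast, div_eq_mul_inv]

theorem en_lt_top (p : ℝ) (hp : 0 < p) (u : E n → ℝ) (C : ℝ≥0) (hu : LipschitzWith C u) (M : ℝ)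
    (h0 : ∀ y, M ≤ ‖y‖ → u y = 0) : en p u < ⊤ := by
  unfold en
  have h1 : ∀ x : E n, ‖fderiv ℝ u x‖ₑ ^ p ≤
      (closedBall (0 : E n) M).indicator (fun _ => (C : ℝ≥0∞) ^ p) x := by
    intro x
    by_cases hx : x ∈ closedBall (0 : E n) M
    · rw [indicator_of_mem hx]
      apply ENNReal.rpow_le_rpow _ hp.le
      have := norm_fderiv_le_of_lipschitz ℝ hu (x₀ := x)
      rw [← ofReal_norm]
      calc ENNReal.ofReal ‖fderiv ℝ u x‖ ≤ ENNReal.ofReal (C : ℝ) := ENNReal.ofReal_le_ofReal this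
        _ = C := ENNReal.ofReal_coe_nnreal
    · rw [indicator_of_notMem hx]
      have hx' : M < ‖x‖ := by simpa [mem_closedBall, dist_zero_right] using hx
      have hev : u =ᶠ[𝓝 x] fun _ => (0 : ℝ) := by
        have : {y : E n | M < ‖y‖} ∈ 𝓝 x :=
          (isOpen_lt continuous_const continuous_norm).mem_nhds hx'
        filter_upwards [this] with y hy
        exact h0 y (le_of_lt hy)
      have : fderiv ℝ u x = 0 := by
        rw [hev.fderiv_eq]
        simp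
      have e0 : ‖fderiv ℝ u x‖ₑ = 0 := by
        rw [← ofReal_norm, this]
        simp
      rw [e0, ENNReal.zero_rpow_of_pos hp]
  calc ∫⁻ x, ‖fderiv ℝ u x‖ₑ ^ p
      ≤ ∫⁻ x, (closedBall (0 : E n) M).indicator (fun _ => (C : ℝ≥0∞) ^ p) x := lintegral_mono h1
    _ = (C : ℝ≥0∞) ^ p * volume (closedBall (0 : E n) M) := by
      rw [lintegral_indicator_const isClosed_closedBall.measurableSet]
    _ < ⊤ := ENNReal.mul_lt_top (ENNReal.rpow_lt_top_of_nonneg hp.le ENNReal.coe_ne_top)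
      measure_closedBall_lt_top

/-- admissible functions -/
structure Adm (K₀ : Set (E n)) (M Λ : ℝ) (w : E n → ℝ) : Prop where
  rng : ∀ y, 0 ≤ w y ∧ w y ≤ 1
  one : ∀ y ∈ K₀, w y = 1
  zero : ∀ y, M ≤ ‖y‖ → w y = 0
  bd : ∀ y z, |w y - w z| * min ‖y‖ ‖z‖ ≤ Λ * ‖y - z‖

theorem Adm.lip {K₀ : Set (E n)} {M Λ d : ℝ} {w : E n → ℝ} (hw : Adm K₀ M Λ w) (hd : 0 < d)
    (hK : ∀ y, ‖y‖ ≤ d → y ∈ K₀) (hΛ : 0 ≤ Λ) : LipschitzWith (Λ / d).toNNReal w := by
  have key : ∀ y z, d ≤ ‖y‖ → d ≤ ‖z‖ → |w y - w z| ≤ Λ / d * ‖y - z‖ := by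
    intro y z hy hz
    have h1 := hw.bd y z
    have h2 : |w y - w z| * d ≤ |w y - w z| * min ‖y‖ ‖z‖ :=
      mul_le_mul_of_nonneg_left (le_min hy hz) (abs_nonneg _)
    rw [div_mul_eq_mul_div, le_div_iff₀ hd]
    linarith
  have key2 : ∀ y z, ‖y‖ < d → d ≤ ‖z‖ → |w y - w z| ≤ Λ / d * ‖y - z‖ := by
    intro y z hy hz
    have hc : Continuous (fun t : ℝ => ‖y + t • (z - y)‖) := by fun_prop
    have hivt := intermediate_value_Icc (zero_le_one' ℝ) hc.continuousOn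
    have hmem : d ∈ Icc ‖y + (0 : ℝ) • (z - y)‖ ‖y + (1 : ℝ) • (z - y)‖ := by
      constructor
      · simpa using hy.le
      · simpa using hz
    obtain ⟨t, ht, htd⟩ := hivt hmem
    simp only at htd
    have h1 := key (y + t • (z - y)) z htd.ge hz
    have h2 : w (y + t • (z - y)) = 1 := hw.one _ (hK _ htd.le)
    have h3 : w y = 1 := hw.one _ (hK _ hy.le)
    rw [h2, ← h3] at h1
    have h4 : ‖y + t • (z - y) - z‖ ≤ ‖y - z‖ := by
      have : y + t • (z - y) - z = (1 - t) • (y - z) := by module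
      rw [this, norm_smul, Real.norm_eq_abs, abs_of_nonneg (by linarith [ht.2])]
      have : (1 - t) * ‖y - z‖ ≤ 1 * ‖y - z‖ :=
        mul_le_mul_of_nonneg_right (by linarith [ht.1]) (norm_nonneg _)
      linarith
    exact h1.trans (mul_le_mul_of_nonneg_left h4 (by positivity))
  apply LipschitzWith.of_dist_le_mul
  intro y z
  rw [Real.dist_eq, dist_eq_norm, Real.coe_toNNReal _ (by positivity)]
  rcases lt_or_ge ‖y‖ d with hy | hy <;> rcases lt_or_ge ‖z‖ d with hz | hz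
  · rw [hw.one _ (hK _ hy.le), hw.one _ (hK _ hz.le)]
    simp; positivity
  · exact key2 y z hy hz
  · rw [abs_sub_comm, norm_sub_rev]; exact key2 z y hz hy
  · exact key y z hy hz

theorem Adm.lim {K₀ : Set (E n)} {M Λ : ℝ} {U : ℕ → E n → ℝ} {w : E n → ℝ}
    (hU : ∀ k, Adm K₀ M Λ (U k)) (h : ∀ x, Tendsto (fun k => U k x) atTop (𝓝 (w x))) :
    Adm K₀ M Λ w where
  rng y := ⟨ge_of_tendsto' (h y) fun k => ((hU k).rng y).1,
    le_of_tendsto' (h y) fun k => ((hU k).rng y).2⟩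
  one y hy := by
    have h1 : Tendsto (fun k => U k y) atTop (𝓝 1) :=
      (tendsto_congr fun k => (hU k).one y hy).2 tendsto_const_nhds
    exact tendsto_nhds_unique (h y) h1
  zero y hy := by
    have h1 : Tendsto (fun k => U k y) atTop (𝓝 0) :=
      (tendsto_congr fun k => (hU k).zero y hy).2 tendsto_const_nhds
    exact tendsto_nhds_unique (h y) h1
  bd y z := by
    have h1 : Tendsto (fun k => |U k y - U k z| * min ‖y‖ ‖z‖) atTop
        (𝓝 (|w y - w z| * min ‖y‖ ‖z‖)) := (((h y).sub (h z)).abs).mul_const _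
    exact le_of_tendsto' h1 fun k => (hU k).bd y z

theorem Adm.avg {K₀ : Set (E n)} {M Λ : ℝ} {w v : E n → ℝ} (hw : Adm K₀ M Λ w)
    (hv : Adm K₀ M Λ v) : Adm K₀ M Λ (fun y => (1 / 2 : ℝ) * (w y + v y)) where
  rng y := by
    have h1 := hw.rng y
    have h2 := hv.rng y
    constructor <;> linarith
  one y hy := by rw [hw.one y hy, hv.one y hy]; norm_num
  zero y hy := by rw [hw.zero y hy, hv.zero y hy]; norm_num
  bd y z := by
    have h1 := hw.bd y z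
    have h2 := hv.bd y z
    have h3 : |(1 / 2 : ℝ) * (w y + v y) - (1 / 2 : ℝ) * (w z + v z)| ≤
        1 / 2 * (|w y - w z| + |v y - v z|) := by
      have : (1 / 2 : ℝ) * (w y + v y) - (1 / 2 : ℝ) * (w z + v z) =
        1 / 2 * ((w y - w z) + (v y - v z)) := by ring
      rw [this, abs_mul, abs_of_nonneg (by norm_num : (0 : ℝ) ≤ 1 / 2)]
      exact mul_le_mul_of_nonneg_left (abs_add_le _ _) (by norm_num)
    have h4 : 0 ≤ min ‖y‖ ‖z‖ := le_min (norm_nonneg _) (norm_nonneg _)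
    nlinarith [mul_le_mul_of_nonneg_right h3 h4]

theorem bd_scale {Λ s : ℝ} {w : E n → ℝ} (hs : 0 < s)
    (hw : ∀ y z, |w y - w z| * min ‖y‖ ‖z‖ ≤ Λ * ‖y - z‖) (y z : E n) :
    |w (s • y) - w (s • z)| * min ‖y‖ ‖z‖ ≤ Λ * ‖y - z‖ := by
  have h1 := hw (s • y) (s • z)
  have h2 : min ‖s • y‖ ‖s • z‖ = s * min ‖y‖ ‖z‖ := by
    rw [norm_smul, norm_smul, Real.norm_eq_abs, abs_of_pos hs, mul_min_of_nonneg _ _ hs.le]
  have h3 : ‖s • y - s • z‖ = s * ‖y - z‖ := by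
    rw [← smul_sub, norm_smul, Real.norm_eq_abs, abs_of_pos hs]
  rw [h2, h3] at h1
  have h4 : s * (|w (s • y) - w (s • z)| * min ‖y‖ ‖z‖) ≤ s * (Λ * ‖y - z‖) := by
    calc _ = |w (s • y) - w (s • z)| * (s * min ‖y‖ ‖z‖) := by ring
      _ ≤ Λ * (s * ‖y - z‖) := h1
      _ = _ := by ring
  exact le_of_mul_le_mul_left h4 hs

theorem bd_min {Λ : ℝ} {w v : E n → ℝ}
    (hw : ∀ y z, |w y - w z| * min ‖y‖ ‖z‖ ≤ Λ * ‖y - z‖)
    (hv : ∀ y z, |v y - v z| * min ‖y‖ ‖z‖ ≤ Λ * ‖y - z‖) (y z : E n) :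
    |min (w y) (v y) - min (w z) (v z)| * min ‖y‖ ‖z‖ ≤ Λ * ‖y - z‖ := by
  have h3 : |min (w y) (v y) - min (w z) (v z)| ≤ max |w y - w z| |v y - v z| :=
    abs_min_sub_min_le_max _ _ _ _
  have h4 : 0 ≤ min ‖y‖ ‖z‖ := le_min (norm_nonneg _) (norm_nonneg _)
  refine (mul_le_mul_of_nonneg_right h3 h4).trans ?_
  rw [max_mul_of_nonneg _ _ h4]
  exact max_le (hw y z) (hv y z)

theorem bd_max {Λ : ℝ} {w v : E n → ℝ}
    (hw : ∀ y z, |w y - w z| * min ‖y‖ ‖z‖ ≤ Λ * ‖y - z‖)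
    (hv : ∀ y z, |v y - v z| * min ‖y‖ ‖z‖ ≤ Λ * ‖y - z‖) (y z : E n) :
    |max (w y) (v y) - max (w z) (v z)| * min ‖y‖ ‖z‖ ≤ Λ * ‖y - z‖ := by
  have h3 : |max (w y) (v y) - max (w z) (v z)| ≤ max |w y - w z| |v y - v z| :=
    abs_max_sub_max_le_max _ _ _ _
  have h4 : 0 ≤ min ‖y‖ ‖z‖ := le_min (norm_nonneg _) (norm_nonneg _)
  refine (mul_le_mul_of_nonneg_right h3 h4).trans ?_
  rw [max_mul_of_nonneg _ _ h4]
  exact max_le (hw y z) (hv y z)

/-- existence of a minimiser -/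
theorem exists_min (h2 : StmtCPT) (h3 : StmtLSC) {p : ℝ} (hp : 1 < p) {K₀ : Set (E n)}
    {M Λ d : ℝ} (hd : 0 < d) (hK : ∀ y, ‖y‖ ≤ d → y ∈ K₀) (hΛ : 0 ≤ Λ) {u : E n → ℝ}
    (hu : Adm K₀ M Λ u) :
    ∃ w, Adm K₀ M Λ w ∧ ∀ w', Adm K₀ M Λ w' → en p w ≤ en p w' := by
  set S : Set ℝ≥0∞ := en p '' {w : E n → ℝ | Adm K₀ M Λ w} with hS
  have hne : S.Nonempty := ⟨en p u, u, hu, rfl⟩
  obtain ⟨a, _, hat, haS⟩ := exists_seq_tendsto_sInf hne (OrderBot.bddBelow S)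
  choose U hU1 hU2 using haS
  have hU1' : ∀ k, Adm K₀ M Λ (U k) := fun k => hU1 k
  obtain ⟨φ, hφ, w, hw⟩ := h2 n (Λ / d).toNNReal U (fun k => (hU1' k).lip hd hK hΛ)
    (fun k x => (hU1' k).rng x)
  have hA : Adm K₀ M Λ w := Adm.lim (fun k => hU1' (φ k)) hw
  have h4 := h3 n p hp.le (fun k => U (φ k)) w (Λ / d).toNNReal
    (fun k => (hU1' (φ k)).lip hd hK hΛ) hw
  have h5 : Tendsto (fun k => en p (U (φ k))) atTop (𝓝 (sInf S)) := by
    have : (fun k => en p (U (φ k))) = a ∘ φ := by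
      funext k; exact hU2 (φ k)
    rw [this]
    exact hat.comp hφ.tendsto_atTop
  rw [h5.liminf_eq] at h4
  exact ⟨w, hA, fun w' hw' => h4.trans (sInf_le ⟨w', hw', rfl⟩)⟩

/-- strict convexity -/
theorem strict (p : ℝ) (hp : 1 < p) (A B : E n →L[ℝ] ℝ) :
    ‖(1 / 2 : ℝ) • (A + B)‖ ^ p ≤ (‖A‖ ^ p + ‖B‖ ^ p) / 2 ∧
    (‖(1 / 2 : ℝ) • (A + B)‖ ^ p = (‖A‖ ^ p + ‖B‖ ^ p) / 2 → A = B) := by
  obtain ⟨a, rfl⟩ := (InnerProductSpace.toDual ℝ (E n)).surjective A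
  obtain ⟨b, rfl⟩ := (InnerProductSpace.toDual ℝ (E n)).surjective B
  rw [← map_add]
  have e1 : ‖(1 / 2 : ℝ) • (InnerProductSpace.toDual ℝ (E n)) (a + b)‖ = 1 / 2 * ‖a + b‖ := by
    rw [norm_smul, LinearIsometryEquiv.norm_map]
    norm_num
  rw [e1, LinearIsometryEquiv.norm_map, LinearIsometryEquiv.norm_map]
  have h1 : 1 / 2 * ‖a + b‖ ≤ 1 / 2 * ‖a‖ + 1 / 2 * ‖b‖ := by
    have := norm_add_le a b; linarith
  have h2 : (1 / 2 * ‖a‖ + 1 / 2 * ‖b‖) ^ p ≤ (‖a‖ ^ p + ‖b‖ ^ p) / 2 := by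
    have := (strictConvexOn_rpow hp).convexOn.2 (mem_Ici.2 (norm_nonneg a))
      (mem_Ici.2 (norm_nonneg b)) (by norm_num : (0 : ℝ) ≤ 1 / 2)
      (by norm_num : (0 : ℝ) ≤ 1 / 2) (by norm_num)
    simp only [smul_eq_mul] at this
    linarith
  have h3 : (1 / 2 * ‖a + b‖) ^ p ≤ (1 / 2 * ‖a‖ + 1 / 2 * ‖b‖) ^ p :=
    Real.rpow_le_rpow (by positivity) h1 (by linarith)
  refine ⟨h3.trans h2, fun heq => ?_⟩
  have h4 : (1 / 2 * ‖a‖ + 1 / 2 * ‖b‖) ^ p = (‖a‖ ^ p + ‖b‖ ^ p) / 2 := le_antisymm h2 (heq ▸ h3)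
  have hab : ‖a‖ = ‖b‖ := by
    by_contra hne
    have := (strictConvexOn_rpow hp).2 (mem_Ici.2 (norm_nonneg a))
      (mem_Ici.2 (norm_nonneg b)) hne (by norm_num : (0 : ℝ) < 1 / 2)
      (by norm_num : (0 : ℝ) < 1 / 2) (by norm_num)
    simp only [smul_eq_mul] at this
    linarith
  have h5 : (1 / 2 * ‖a + b‖) ^ p = (1 / 2 * ‖a‖ + 1 / 2 * ‖b‖) ^ p := by rw [h4, heq]
  have h6 : 1 / 2 * ‖a + b‖ = 1 / 2 * ‖a‖ + 1 / 2 * ‖b‖ := by
    have := (Real.rpow_left_inj (by positivity : (0 : ℝ) ≤ 1 / 2 * ‖a + b‖)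
      (by positivity : (0 : ℝ) ≤ 1 / 2 * ‖a‖ + 1 / 2 * ‖b‖) (by linarith : p ≠ 0)).1 h5
    exact this
  have h7 : ‖a + b‖ = 2 * ‖b‖ := by rw [hab] at h6; linarith
  have h8 := parallelogram_law_with_norm ℝ a b
  rw [h7, hab] at h8
  have h9 : ‖a - b‖ * ‖a - b‖ = 0 := by nlinarith
  have h10 : ‖a - b‖ = 0 := by
    rcases mul_eq_zero.1 h9 with h | h <;> exact h
  have h11 : a = b := by rwa [norm_eq_zero, sub_eq_zero] at h10
  rw [h11]

theorem strict' (p : ℝ) (hp : 1 < p) (A B : E n →L[ℝ] ℝ) :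
    ‖(1 / 2 : ℝ) • (A + B)‖ₑ ^ p ≤ (‖A‖ₑ ^ p + ‖B‖ₑ ^ p) / 2 ∧
    (‖(1 / 2 : ℝ) • (A + B)‖ₑ ^ p = (‖A‖ₑ ^ p + ‖B‖ₑ ^ p) / 2 → A = B) := by
  have hp0 : 0 ≤ p := by linarith
  have e : ∀ T : E n →L[ℝ] ℝ, ‖T‖ₑ ^ p = ENNReal.ofReal (‖T‖ ^ p) := by
    intro T
    rw [← ofReal_norm, ENNReal.ofReal_rpow_of_nonneg (norm_nonneg _) hp0]
  have e2 : (‖A‖ₑ ^ p + ‖B‖ₑ ^ p) / 2 = ENNReal.ofReal ((‖A‖ ^ p + ‖B‖ ^ p) / 2) := by
    rw [e, e, ← ENNReal.ofReal_add (by positivity) (by positivity),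
      ENNReal.ofReal_div_of_pos (by norm_num)]
    simp
  rw [e, e2]
  refine ⟨ENNReal.ofReal_le_ofReal (strict p hp A B).1, fun h => (strict p hp A B).2 ?_⟩
  exact (ENNReal.ofReal_eq_ofReal_iff (by positivity) (by positivity)).1 h

/-- a Lipschitz function with compact support, `≥ 0` and with derivative zero a.e. is zero -/
theorem eq_zero_of_fderiv (hn : 0 < n) (g : E n → ℝ) (C : ℝ≥0) (hg : LipschitzWith C g)
    (hc : HasCompactSupport g) (h0 : ∀ x, 0 ≤ g x) (hd : ∀ᵐ x : E n, fderiv ℝ g x = 0) (x : E n) :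
    g x = 0 := by
  set e0 : E n := EuclideanSpace.single ⟨0, hn⟩ (1 : ℝ) with he0
  have hee : ⟪e0, e0⟫ = (1 : ℝ) := by
    rw [real_inner_self_eq_norm_sq, he0]; simp
  set f : E n → ℝ := fun x => ⟪e0, x⟫ with hf
  have hfl : LipschitzWith ‖(innerSL ℝ e0)‖₊ f := (innerSL ℝ e0).lipschitz
  have h1 := LipschitzWith.integral_lineDeriv_mul_eq (μ := (volume : Measure (E n))) hfl hg hc e0
  have h2 : ∀ x, lineDeriv ℝ f x e0 = 1 := by
    intro x
    have hdiff : HasFDerivAt f (innerSL ℝ e0) x := (innerSL ℝ e0).hasFDerivAt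
    rw [hdiff.differentiableAt.lineDeriv_eq_fderiv, hdiff.fderiv]
    simpa using hee
  have h3 : ∀ᵐ x : E n, lineDeriv ℝ g x (-e0) * f x = 0 := by
    filter_upwards [hd, hg.ae_differentiableAt] with x hx hx2
    rw [hx2.lineDeriv_eq_fderiv, hx]
    simp
  rw [integral_eq_zero_of_ae h3] at h1
  simp_rw [h2, one_mul] at h1
  have h4 : g =ᵐ[volume] 0 := by
    rwa [integral_eq_zero_iff_of_nonneg h0
      (hg.continuous.integrable_of_hasCompactSupport hc)] at h1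
  have h5 : g = 0 := hg.continuous.ae_eq_iff_eq (volume : Measure (E n)) continuous_const |>.1 h4
  rw [h5]; rfl

theorem wmin (h1 : StmtU2) (h2 : StmtCPT) (h3 : StmtLSC) : StmtWMIN := by
  intro n p hp hpn K₀ d M hd hK hKM hKs u ⟨C, hC⟩ hu01 hu1 hu0
  have hp0 : 0 < p := by linarith
  have hn : 0 < n := by
    by_contra h
    have : n = 0 := by omega
    rw [this] at hpn
    simp at hpn
    linarith
  have hM : 0 < M := by
    have := hKM 0 (hK 0 (by simpa using hd.le))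
    simpa using this
  set Λ : ℝ := C * M with hΛ
  have hΛ0 : 0 ≤ Λ := by positivity
  have huA : Adm K₀ M Λ u := by
    refine ⟨hu01, hu1, hu0, fun y z => ?_⟩
    rcases le_or_gt (min ‖y‖ ‖z‖) M with hm | hm
    · have hL : |u y - u z| ≤ C * ‖y - z‖ := by
        have := hC.dist_le_mul y z
        rwa [Real.dist_eq, dist_eq_norm] at this
      have h4 : 0 ≤ min ‖y‖ ‖z‖ := le_min (norm_nonneg _) (norm_nonneg _)
      calc |u y - u z| * min ‖y‖ ‖z‖ ≤ (C * ‖y - z‖) * M :=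
            mul_le_mul hL hm h4 (by positivity)
        _ = Λ * ‖y - z‖ := by rw [hΛ]; ring
    · rw [hu0 y (hm.le.trans (min_le_left _ _)), hu0 z (hm.le.trans (min_le_right _ _))]
      simp; positivity
  obtain ⟨w, hw, hmin⟩ := exists_min h2 h3 hp hd hK hΛ0 huA
  have hwl := hw.lip hd hK hΛ0
  have hfin : ∀ v, Adm K₀ M Λ v → en p v < ⊤ := fun v hv =>
    en_lt_top p hp0 v _ (hv.lip hd hK hΛ0) M hv.zero
  refine ⟨w, ⟨_, hwl⟩, hw.rng, hw.one, hw.zero, ?_, hmin u huA⟩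
  intro y t ht
  rcases eq_or_lt_of_le ht.1 with h0 | h0
  · rw [← h0, zero_smul, hw.one 0 (hK 0 (by simpa using hd.le))]
    exact (hw.rng y).2
  rcases eq_or_lt_of_le ht.2 with h1' | h1'
  · rw [h1', one_smul]
  -- now 0 < t < 1
  set v : E n → ℝ := fun y => w (t • y) with hv
  have hvbd : ∀ y z, |v y - v z| * min ‖y‖ ‖z‖ ≤ Λ * ‖y - z‖ := bd_scale h0 hw.bd
  set mn : E n → ℝ := fun y => min (w y) (v y) with hmn
  set mx : E n → ℝ := fun y => max (w y) (v y) with hmx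
  have hmnA : Adm K₀ M Λ mn := by
    refine ⟨fun y => ⟨le_min (hw.rng y).1 (hw.rng _).1, (min_le_left _ _).trans (hw.rng y).2⟩,
      fun y hy => ?_, fun y hy => ?_, bd_min hw.bd hvbd⟩
    · simp only [hmn, hv]
      rw [hw.one y hy, hw.one _ (hKs y hy t ht), min_self]
    · simp only [hmn, hv]
      rw [hw.zero y hy, min_eq_left (hw.rng _).1]
  set M' : E n → ℝ := fun y => max (w (t⁻¹ • y)) (w y) with hM'
  have hti : 0 < t⁻¹ := by positivity
  have hM'A : Adm K₀ M Λ M' := by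
    refine ⟨fun y => ⟨(hw.rng y).1.trans (le_max_right _ _), max_le (hw.rng _).2 (hw.rng y).2⟩,
      fun y hy => ?_, fun y hy => ?_, bd_max (bd_scale hti hw.bd) hw.bd⟩
    · simp only [hM']
      rw [hw.one y hy, max_eq_right (hw.rng _).2]
    · simp only [hM']
      rw [hw.zero y hy, hw.zero (t⁻¹ • y), max_self]
      rw [norm_smul, Real.norm_eq_abs, abs_of_pos hti]
      have : (1 : ℝ) ≤ t⁻¹ := (one_le_inv₀ h0).2 ht.2
      nlinarith [norm_nonneg y]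
  -- energies
  have hev : en p v = ENNReal.ofReal (t ^ (p - n)) * en p w := en_scale p hp0.le w t h0
  have hemx : en p mx = ENNReal.ofReal (t ^ (p - n)) * en p M' := by
    rw [← en_scale p hp0.le M' t h0]
    congr 1
    funext y
    simp only [hmx, hM', hv]
    rw [smul_smul, inv_mul_cancel₀ h0.ne', one_smul]
  have hge : en p v ≤ en p mx := by
    rw [hev, hemx]
    exact mul_le_mul_right (hmin M' hM'A) _
  have hvl : ∃ C, LipschitzWith C v := by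
    refine ⟨_, hwl.comp (lipschitzWith_smul t)⟩
  have hsum : en p mx + en p mn = en p w + en p v := by
    unfold en
    rw [← lintegral_add_left (meas_enp p mx), ← lintegral_add_left (meas_enp p w)]
    exact lintegral_congr_ae (h1 n p w v ⟨_, hwl⟩ hvl)
  have hvfin : en p v < ⊤ := by
    rw [hev]
    exact ENNReal.mul_lt_top ENNReal.ofReal_lt_top (hfin w hw)
  have hle : en p mn ≤ en p w := by
    have h5 : en p v + en p mn ≤ en p v + en p w := by
      calc en p v + en p mn ≤ en p mx + en p mn := add_le_add_left hge _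
        _ = en p w + en p v := hsum
        _ = en p v + en p w := add_comm _ _
    exact (ENNReal.add_le_add_iff_left hvfin.ne).1 h5
  have heq : en p mn = en p w := le_antisymm hle (hmin mn hmnA)
  -- strict convexity
  have havg := hmin _ (hw.avg hmnA)
  have hmnl := hmnA.lip hd hK hΛ0
  have hder : ∀ᵐ x : E n, fderiv ℝ (fun y => (1 / 2 : ℝ) * (w y + mn y)) x =
      (1 / 2 : ℝ) • (fderiv ℝ w x + fderiv ℝ mn x) := by
    filter_upwards [hwl.ae_differentiableAt, hmnl.ae_differentiableAt] with x hx hx2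
    rw [fderiv_const_mul (hx.fun_add hx2), fderiv_fun_add hx hx2]
  have hle2 : (fun x => ‖fderiv ℝ (fun y => (1 / 2 : ℝ) * (w y + mn y)) x‖ₑ ^ p) ≤ᵐ[volume]
      fun x => (‖fderiv ℝ w x‖ₑ ^ p + ‖fderiv ℝ mn x‖ₑ ^ p) / 2 := by
    filter_upwards [hder] with x hx
    rw [hx]
    exact (strict' p hp _ _).1
  have hmeas : Measurable (fun x : E n => (‖fderiv ℝ w x‖ₑ ^ p + ‖fderiv ℝ mn x‖ₑ ^ p) / 2) :=
    ((meas_enp p w).add (meas_enp p mn)).div_const 2
  have hint : ∫⁻ x : E n, (‖fderiv ℝ w x‖ₑ ^ p + ‖fderiv ℝ mn x‖ₑ ^ p) / 2 = en p w := by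
    simp_rw [div_eq_mul_inv]
    have hma : Measurable (fun x : E n => ‖fderiv ℝ w x‖ₑ ^ p + ‖fderiv ℝ mn x‖ₑ ^ p) :=
      (meas_enp p w).add (meas_enp p mn)
    rw [lintegral_mul_const _ hma, lintegral_add_left (meas_enp p w)]
    change (en p w + en p mn) * 2⁻¹ = en p w
    rw [heq, ← two_mul, mul_comm, ← mul_assoc, ENNReal.inv_mul_cancel (by norm_num) (by norm_num),
      one_mul]
  have hae := ae_eq_of_ae_le_of_lintegral_le hle2
    (hfin _ (hw.avg hmnA)).ne hmeas.aemeasurable (by rw [hint]; exact havg)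
  have hder2 : ∀ᵐ x : E n, fderiv ℝ w x = fderiv ℝ mn x := by
    filter_upwards [hae, hder] with x hx hx2
    rw [hx2] at hx
    exact (strict' p hp _ _).2 hx
  set g : E n → ℝ := fun y => w y - mn y with hg
  have hgl : LipschitzWith ((Λ / d).toNNReal + (Λ / d).toNNReal) g := hwl.sub hmnl
  have hgc : HasCompactSupport g := by
    apply HasCompactSupport.intro (isCompact_closedBall (0 : E n) M)
    intro x hx
    have hx' : M < ‖x‖ := by simpa [mem_closedBall, dist_zero_right] using hx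
    simp only [hg]
    rw [hw.zero x hx'.le, hmnA.zero x hx'.le, sub_zero]
  have hg0 : ∀ x, 0 ≤ g x := fun x => sub_nonneg.2 (min_le_left _ _)
  have hgd : ∀ᵐ x : E n, fderiv ℝ g x = 0 := by
    filter_upwards [hder2, hwl.ae_differentiableAt, hmnl.ae_differentiableAt] with x hx hx1 hx2
    rw [hg, fderiv_fun_sub hx1 hx2, hx, sub_self]
  have hfinal := eq_zero_of_fderiv hn g _ hgl hgc hg0 hgd y
  have h7 : w y = min (w y) (w (t • y)) := by
    have : w y - min (w y) (w (t • y)) = 0 := hfinal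
    linarith
  rw [h7]
  exact min_le_right _ _

end Pool.Agent.Helper11.RQ
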